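import Pool.Agent.H424.BX.Crit
import Pool.Agent.TH941.Newform

/-!
# Goldfeld's theorem with exceptional cut-offs, and its converse

Let `E : y² = x³ + a x + b` be an elliptic curve over `ℚ`, `a, b ∈ ℤ`, let `N_p` be the number of affine points
modulo the good primes `p ∤ 2Δ`, let `F` be the entire continuation of the incomplete `L`-series,
`m = ord_{s=1} F`, `T = √2 e^{mγ} m! / |F^{(m)}(1)|` and

`P(n) = ∏_{p ≤ n, p ∤ 2Δ} (N_p + 1)/p`.

The original conjecture of Birch and Swinnerton-Dyer says that `P(n) ∼ A (log n)^r`. Goldfeld (1982) showed that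
`P(n) ∼ A (log n)^ρ` implies that `F` has no zeros with `Re s > 1`, `ρ = m` and `A = T`. Whether the converse holds is
open. Here exceptional cut-offs `n` are admitted.

1. If for some `δ > 0` and every `ε > 0` there are infinitely many `N` such that `|P(n)/(log n)^ρ - A| ≤ ε` for all but
   `N^(1-δ)` of the numbers `n ≤ N` (`A > 0`), then `F` has no zeros with `Re s > 1`, `ρ = m` and `A = T`.
2. For real `ρ` and `A > 0` the following are EQUIVALENT:
   (i) `F` has no zeros with `Re s > 1`, `ρ = m` and `A = T`;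
   (ii) for every `ε > 0` there is a `δ > 0` such that for all large `N` at most `N^(1-δ)` of the `n ≤ N` satisfy
   `|log P(n)| > n^ε`; and for every `ε > 0` the set of the `n` with `|P(n)/(log n)^ρ - A| > ε` has a finite
   logarithmic measure `∑ 1/n`;
   (iii) for every `ε > 0` there is a `δ > 0` such that for infinitely many `N` at most `N^(1-δ)` of the `n ≤ N`
   satisfy `log P(n) > n^ε`; and for every `ε > 0` the set of the `n` with `|P(n)/(log n)^ρ - A| ≤ ε` has a
   positive upper logarithmic density.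

Part 1 is stronger than Goldfeld's theorem for one sequence of windows `[X^(1-δ), X]` (one of the starting files,
`EveryWindow`), since exceptions in the windows are admitted; and (iii) does not even ask that the asymptotic
holds for most cut-offs.

Proof. (`Pool.Agent.H424.BX`.) Let `b` be the supremum of the real parts of the zeros of `F(1 + s)`, `b > 0`. The explicit
formula with Gaussian weights (`Pool.Agent.TH949.TX`), used at a real point slightly below `b` and at a complex one,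
shows that the Gaussian means of the positive part of `log P(e^u) e^{-σu}` are large at every scale, `σ` near `b`. By
Plancherel's theorem (`Pool.Agent.TH270.MS`) and the growth of `F`, `log P(e^u) e^{-xu}` is square integrable for
`x > b`. By Cauchy's inequality the set of the large values cannot be small: `P(n) > exp(n^c)`, `c < b`, for at least
`N^(1-δ)` of the `n ≤ N`. If there are no zeros, the mean square law (helper270) gives the asymptotic outside
a set of finite logarithmic measure, and this determines `ρ` and `A`.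
-/

set_option autoImplicit false

namespace Pool.Agent.Results.MP_3283e1_nt.GoldfeldWithExceptions

open Pool.Agent.W263.BSD hiding TG
open Filter Topology Classical CongruenceSubgroup UpperHalfPlane
open scoped MatrixGroups

/-- `P(n)`: the product of `(N_p + 1) / p` over the primes `p ≤ n`, `p ∤ 2Δ`. -/
noncomputable def P (a b : ℤ) (n : ℕ) : ℝ :=
  ∏ p ∈ (Finset.range (n + 1)).filter (GoodPrime a b), (((pointCount a b p : ℝ) + 1) / p)

/-- The `n`-th Fourier coefficient of `f`. -/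
noncomputable def coef {N : ℕ} (f : CuspForm (Gamma0 N : Subgroup (GL (Fin 2) ℝ)) 2) (n : ℕ) : ℂ :=
  (qExpansion 1 f).coeff n

/-- `f ∈ S_2(Γ₀(N))` is the newform of the elliptic curve `E : y² = x³ + a x + b` of conductor `N`: the
Fourier coefficients `c(n)` of `f` are real with `c(1) = 1`, they satisfy the Hecke relations
`c(mn) = c(m) c(n)` for coprime `m`, `n` and `c(p^(j+2)) = c(p) c(p^(j+1)) - p c(p^j)` (without the last
term if `p ∣ N`), `c(p) = a_p = p - N_p` (`N_p` affine points) for all primes `p ∤ 2Δ`, `|c(p)| ≤ 2 √p` for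
all `p ∤ N` (Hasse) and `c(p) = 0, 1, -1` for `p ∣ N`. -/
structure IsNewformOf (a b : ℤ) (N : ℕ) (f : CuspForm (Gamma0 N : Subgroup (GL (Fin 2) ℝ)) 2) :
    Prop where
  one : coef f 1 = 1
  real : ∀ n, (coef f n).im = 0
  mul : ∀ m n : ℕ, Nat.Coprime m n → coef f (m * n) = coef f m * coef f n
  pow : ∀ p j : ℕ, p.Prime → coef f (p ^ (j + 2)) = coef f p * coef f (p ^ (j + 1)) -
      (if p ∣ N then 0 else (p : ℂ) * coef f (p ^ j))
  points : ∀ p : ℕ, GoodPrime a b p → coef f p = (p : ℂ) - (pointCount a b p : ℂ)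
  good : ∀ p : ℕ, p.Prime → ¬ p ∣ N → ‖coef f p‖ ≤ 2 * Real.sqrt p
  bad : ∀ p : ℕ, p.Prime → p ∣ N → coef f p = 0 ∨ coef f p = 1 ∨ coef f p = -1

/-- Goldfeld's constant `T = √2 e^{mγ} m! / |F^{(m)}(1)|` -/
noncomputable def T (F : ℂ → ℂ) (m : ℕ) : ℝ :=
  √2 * Real.exp (m * Real.eulerMascheroniConstant) * (m.factorial : ℝ) / ‖iteratedDeriv m F 1‖

/-- `F` has no zeros with `Re s > 1`. -/
def NoZeros (F : ℂ → ℂ) : Prop := ∀ s : ℂ, 1 < s.re → F s ≠ 0

/-- The number of the elements `n` of `S` with `1 ≤ n ≤ N`. -/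
noncomputable def count (S : Set ℕ) (N : ℕ) : ℕ := {n : ℕ | 1 ≤ n ∧ n ≤ N ∧ n ∈ S}.ncard

/-- The sum of the `1/n` over the elements `n` of `S` with `1 ≤ n ≤ N`. -/
noncomputable def logSum (S : Set ℕ) (N : ℕ) : ℝ := ∑ n ∈ (Finset.Icc 1 N).filter (· ∈ S), (1 : ℝ) / n

/-- For every `ε > 0` there is a `δ > 0` such that for all large `N` the inequality `|log P(n)| > n^ε` holds for at
most `N^(1-δ)` of the numbers `n ≤ N`. -/
def FewExceptions (a b : ℤ) : Prop := ∀ ε : ℝ, 0 < ε → ∃ δ : ℝ, 0 < δ ∧ ∀ᶠ N : ℕ in atTop,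
  (count {n : ℕ | (n : ℝ) ^ ε < |Real.log (P a b n)|} N : ℝ) ≤ (N : ℝ) ^ (1 - δ)

/-- For every `ε > 0` there is a `δ > 0` such that for infinitely many `N` the inequality `log P(n) > n^ε` holds for
at most `N^(1-δ)` of the numbers `n ≤ N`. -/
def SometimesFewLarge (a b : ℤ) : Prop := ∀ ε : ℝ, 0 < ε → ∃ δ : ℝ, 0 < δ ∧ ∃ᶠ N : ℕ in atTop,
  (count {n : ℕ | (n : ℝ) ^ ε < Real.log (P a b n)} N : ℝ) ≤ (N : ℝ) ^ (1 - δ)

/-- For every `ε > 0` the inequality `|P(n)/(log n)^ρ - A| ≤ ε` holds for all `n` outside a set of finite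
logarithmic measure. -/
def AlmostAlways (a b : ℤ) (ρ A : ℝ) : Prop := ∀ ε : ℝ, 0 < ε → Summable fun n : ℕ =>
  if ε < |P a b n / Real.log n ^ ρ - A| then (1 : ℝ) / n else 0

/-- For every `ε > 0` the inequality `|P(n)/(log n)^ρ - A| ≤ ε` holds for all `n` in a set of positive upper
logarithmic density. -/
def OnPositiveDensity (a b : ℤ) (ρ A : ℝ) : Prop := ∀ ε : ℝ, 0 < ε → ∃ η : ℝ, 0 < η ∧ ∃ᶠ N : ℕ in atTop,
  η * Real.log N ≤ logSum {n : ℕ | |P a b n / Real.log n ^ ρ - A| ≤ ε} N

/-! ### Translation -/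

variable {a b : ℤ}

theorem P_eq (n : ℕ) : P a b n = bsdProduct a b n := by
  unfold P bsdProduct
  rw [Nat.floor_natCast]

theorem hecke {N : ℕ} {f : CuspForm (Gamma0 N : Subgroup (GL (Fin 2) ℝ)) 2}
    (hf : IsNewformOf a b N f) : Pool.Agent.TH941.Hecke f where
  one := hf.one
  real := hf.real
  mul := hf.mul
  pow := hf.pow
  good := hf.good
  bad := fun p hp h => by
    rcases hf.bad p hp h with h1 | h1 | h1
    · have h2 : ‖coef f p‖ ≤ 1 := by rw [h1]; simp
      exact h2
    · have h2 : ‖coef f p‖ ≤ 1 := by rw [h1]; simp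
      exact h2
    · have h2 : ‖coef f p‖ ≤ 1 := by rw [h1]; simp
      exact h2

theorem hy {N : ℕ} [NeZero N] {f : CuspForm (Gamma0 N : Subgroup (GL (Fin 2) ℝ)) 2}
    (hΔ : 4 * a ^ 3 + 27 * b ^ 2 ≠ 0) (hf : IsNewformOf a b N f) {F : ℂ → ℂ} (hF : IsLSeries a b F) :
    Pool.Agent.H424.BX.Hy a b F where
  disc := hΔ
  rs := (hecke hf).rsSum_tendsto hΔ fun p hp => hf.points p hp
  gr := Pool.Agent.TH942.RZ.growth_newform hΔ hF (hecke hf) fun p hp => hf.points p hp
  gl := Pool.Agent.TH270.MS.EQ.growth_F hΔ hF (hecke hf) fun p hp => hf.points p hp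
  lser := hF

theorem sav_eq : FewExceptions a b = Pool.Agent.H424.BX.Sav a b := by
  unfold FewExceptions Pool.Agent.H424.BX.Sav
  simp only [P_eq]
  rfl

theorem savF_eq : SometimesFewLarge a b = Pool.Agent.H424.BX.SavF a b := by
  unfold SometimesFewLarge Pool.Agent.H424.BX.SavF
  simp only [P_eq]
  rfl

/-- **Goldfeld's theorem with exceptional cut-offs, and its converse.** -/
theorem result (a b : ℤ) (hΔ : 4 * a ^ 3 + 27 * b ^ 2 ≠ 0) (F : ℂ → ℂ) (hF : IsLSeries a b F)
    (N : ℕ) [NeZero N] (f : CuspForm (Gamma0 N : Subgroup (GL (Fin 2) ℝ)) 2) (hf : IsNewformOf a b N f)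
    (ρ A : ℝ) (hA : 0 < A) :
    (∀ δ : ℝ, 0 < δ → (∀ ε : ℝ, 0 < ε → ∃ᶠ M : ℕ in atTop,
        (count {n : ℕ | ε < |P a b n / Real.log n ^ ρ - A|} M : ℝ) ≤ (M : ℝ) ^ (1 - δ)) →
      NoZeros F ∧ ∃ m : ℕ, analyticOrderAt F 1 = m ∧ ρ = m ∧ A = T F m) ∧
    List.TFAE [
      NoZeros F ∧ ∃ m : ℕ, analyticOrderAt F 1 = m ∧ ρ = m ∧ A = T F m,
      FewExceptions a b ∧ AlmostAlways a b ρ A,
      SometimesFewLarge a b ∧ OnPositiveDensity a b ρ A] := by
  have H := hy hΔ hf hF
  have e : (NoZeros F ∧ ∃ m : ℕ, analyticOrderAt F 1 = m ∧ ρ = m ∧ A = T F m) ↔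
      (Pool.Agent.H424.BX.NZ F ∧ ∃ m : ℕ, ρ = m ∧ analyticOrderAt F 1 = m ∧
        A = Pool.Agent.TH949.TX.TG F m) := by
    refine and_congr Iff.rfl (exists_congr fun m => ?_)
    constructor
    · rintro ⟨h1, h2, h3⟩
      exact ⟨h2, h1, h3⟩
    · rintro ⟨h1, h2, h3⟩
      exact ⟨h2, h1, h3⟩
  refine ⟨fun δ hδ h => ?_, ?_⟩
  · rw [e]
    refine Pool.Agent.H424.BX.goldfeld H ρ hA hδ fun ε hε => ?_
    have h1 := h ε hε
    simp only [P_eq] at h1
    exact h1
  · rw [e, sav_eq, savF_eq]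
    unfold AlmostAlways OnPositiveDensity
    simp only [P_eq]
    exact Pool.Agent.H424.BX.crit_const H ρ hA

end Pool.Agent.Results.MP_3283e1_nt.GoldfeldWithExceptions
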